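import Pool.Agent.Run7.h547.FM.GDefs

/-!
# The number field side of the counterexample to MP_395897_nt (helper658, piece G)

Roots of unity of `l`-power order are distinct modulo a prime ideal not containing `l`; hence
the cyclotomic character is trivial on the inertia group and sends a geometric Frobenius element to
the inverse of the number of elements of the residue field.
-/

set_option autoImplicit false

noncomputable section

open NumberField Polynomial Run7.h547

namespace Run7.h658.FM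

section Roots

variable {B : Type*} [CommRing B] [IsDomain B]

lemma eq_one_of_sub_mem (P : Ideal B) {l : ℕ} (hP : (l : B) ∉ P) (m : ℕ) :
    ∀ x : B, x ^ l ^ m = 1 → x - 1 ∈ P → x = 1 := by
  induction m with
  | zero => intro x hx _; simpa using hx
  | succ m ih =>
    intro x hx h
    have hpow : ∀ i : ℕ, x ^ i - 1 ∈ P := fun i =>
      P.mem_of_dvd (by simpa using sub_dvd_pow_sub_pow x 1 i) h
    have h1 : x ^ l = 1 := by
      refine ih (x ^ l) ?_ (hpow l)
      rw [← pow_mul, ← pow_succ', hx]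
    by_contra hx1
    have h2 : ∑ i ∈ Finset.range l, x ^ i = 0 := by
      have h3 := geom_sum_mul x l
      rw [h1, sub_self, mul_eq_zero] at h3
      exact h3.resolve_right (sub_ne_zero.2 hx1)
    have h4 : ∑ i ∈ Finset.range l, (x ^ i - 1) ∈ P := sum_mem fun i _ => hpow i
    rw [Finset.sum_sub_distrib, h2, zero_sub] at h4
    simp only [Finset.sum_const, Finset.card_range, nsmul_eq_mul, mul_one] at h4
    exact hP ((neg_mem_iff (H := P)).1 h4)

lemma eq_of_sub_mem (P : Ideal B) {l : ℕ} (hl : l ≠ 0) (hP : (l : B) ∉ P) (m : ℕ) {x y : B}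
    (hx : x ^ l ^ m = 1) (hy : y ^ l ^ m = 1) (h : x - y ∈ P) : x = y := by
  have hpos : 0 < l ^ m := pow_pos (Nat.pos_of_ne_zero hl) m
  obtain ⟨k, hk⟩ : ∃ k, l ^ m = k + 1 := ⟨l ^ m - 1, by omega⟩
  have hyk : y * y ^ k = 1 := by rw [← pow_succ', ← hk, hy]
  have h1 : x * y ^ k = 1 := by
    refine eq_one_of_sub_mem P hP m _ ?_ ?_
    · rw [mul_pow, hx, one_mul, ← pow_mul, mul_comm, pow_mul, hy, one_pow]
    · have : x * y ^ k - 1 = (x - y) * y ^ k := by rw [sub_mul, hyk]
      rw [this]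
      exact P.mul_mem_right _ h
  calc x = x * (y * y ^ k) := by rw [hyk, mul_one]
    _ = y * (x * y ^ k) := by ring
    _ = y := by rw [h1, mul_one]

end Roots

variable {F : Type} [Field F] [CharZero F] {l : ℕ} [Fact l.Prime]

/-- If `τ` raises all `l`-power roots of unity to the power `a`, then `χ(τ) = a`. -/
lemma chi_eq (τ : GF F) (a : ℕ)
    (h : ∀ (m : ℕ) (x : AlgebraicClosure F), x ^ l ^ m = 1 → τ x = x ^ a) :
    ((cyclotomicCharacter (AlgebraicClosure F) l
      (τ : AlgebraicClosure F ≃+* AlgebraicClosure F) : ℤ_[l]ˣ) : ℤ_[l]) = a := by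
  have hl : l.Prime := Fact.out
  have hne : ∀ i : ℕ, NeZero (l ^ i) := fun i => ⟨pow_ne_zero i hl.ne_zero⟩
  refine PadicInt.ext_of_toZModPow.mp fun n => ?_
  obtain ⟨ζ, hζ⟩ := HasEnoughRootsOfUnity.exists_primitiveRoot (AlgebraicClosure F) (l ^ n)
  have h1 := cyclotomicCharacter.spec l (τ : AlgebraicClosure F ≃+* AlgebraicClosure F) ζ
    (n := n) hζ.pow_eq_one
  have h2 := h n ζ hζ.pow_eq_one
  have h3 : ζ ^ (((cyclotomicCharacter (AlgebraicClosure F) l
      (τ : AlgebraicClosure F ≃+* AlgebraicClosure F) : ℤ_[l]ˣ) : ℤ_[l]).toZModPow n).val =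
      ζ ^ a := by
    rw [← h1, ← h2]; rfl
  have hu : IsPrimitiveRoot (hζ.isUnit (NeZero.ne _)).unit (l ^ n) :=
    hζ.isUnit_unit (NeZero.ne _)
  have h3' : (hζ.isUnit (NeZero.ne _)).unit ^ (((cyclotomicCharacter (AlgebraicClosure F) l
      (τ : AlgebraicClosure F ≃+* AlgebraicClosure F) : ℤ_[l]ˣ) : ℤ_[l]).toZModPow n).val =
      (hζ.isUnit (NeZero.ne _)).unit ^ a := by
    apply Units.ext
    rw [Units.val_pow_eq_pow_val, Units.val_pow_eq_pow_val]
    exact h3
  have h4 := pow_eq_pow_iff_modEq.1 h3'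
  rw [← hu.eq_orderOf] at h4
  rw [map_natCast]
  have h5 := (ZMod.natCast_eq_natCast_iff _ _ _).2 h4
  rw [ZMod.natCast_zmod_val] at h5
  exact h5

lemma isIntegral_of_pow_eq_one {x : AlgebraicClosure F} {m : ℕ} (hl : l ≠ 0)
    (hx : x ^ l ^ m = 1) : IsIntegral ℤ x :=
  IsIntegral.of_pow (pow_pos (Nat.pos_of_ne_zero hl) m) (hx ▸ isIntegral_one)

/-- Congruences modulo `P` determine the action on roots of unity. -/
lemma apply_eq (P : Ideal (Zbar F)) (hP : (l : Zbar F) ∉ P) (τ : GF F) (a : ℕ)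
    (h : ∀ x : Zbar F, τ • x - x ^ a ∈ P) (m : ℕ) (x : AlgebraicClosure F)
    (hx : x ^ l ^ m = 1) : τ x = x ^ a := by
  have hl : l ≠ 0 := (Fact.out : l.Prime).ne_zero
  let y : Zbar F := ⟨x, isIntegral_of_pow_eq_one hl hx⟩
  have hy : y ^ l ^ m = 1 := by
    apply RingOfIntegers.ext
    push_cast
    exact hx
  have h1 : τ • y = y ^ a := by
    refine eq_of_sub_mem P hl hP m ?_ ?_ (h y)
    · rw [← smul_pow', hy, smul_one]
    · rw [← pow_mul, mul_comm, pow_mul, hy, one_pow]
  have h2 := congrArg (algebraMap (Zbar F) (AlgebraicClosure F)) h1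
  rw [map_pow] at h2
  exact h2

end Run7.h658.FM
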