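import Mathlib

/-!
# A square root of the identity character of `ℤ_pˣ` (piece F1 of MP_395897_nt, helper547)
-/

set_option autoImplicit false

noncomputable section

namespace Run7.h658.FM

variable (p : ℕ) [Fact p.Prime]

open Polynomial

lemma two_norm : (1 / 4 : ℝ) ≤ ‖(2 : ℤ_[p])‖ ^ 2 ∧ (p : ℝ) ^ (-(3 : ℤ)) < ‖(2 : ℤ_[p])‖ ^ 2 := by
  have hp := (Fact.out : p.Prime)
  by_cases h : p = 2
  · subst h
    have h1 : ‖(2 : ℤ_[2])‖ = 1 / 2 := by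
      have := PadicInt.norm_p (p := 2)
      simpa using this
    rw [h1]
    norm_num
  · have h1 : ‖(2 : ℤ_[p])‖ = 1 := by
      have h2 : IsUnit (2 : ℤ_[p]) := by
        rw [PadicInt.isUnit_iff]
        have h3 : ‖((2 : ℕ) : ℤ_[p])‖ = 1 := by
          by_contra h4
          have h5 : ‖((2 : ℕ) : ℤ_[p])‖ < 1 := lt_of_le_of_ne (PadicInt.norm_le_one _) h4
          rw [PadicInt.norm_natCast_lt_one_iff] at h5
          exact h ((Nat.prime_dvd_prime_iff_eq hp Nat.prime_two).1 h5)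
        simpa using h3
      exact PadicInt.isUnit_iff.1 h2
    rw [h1]
    refine ⟨by norm_num, ?_⟩
    rw [one_pow]
    have h2 : (2 : ℝ) ≤ p := by exact_mod_cast hp.two_le
    have h3 : (p : ℝ) ^ (-(3 : ℤ)) = ((p : ℝ) ^ 3)⁻¹ := by
      rw [zpow_neg]; norm_cast
    rw [h3, inv_lt_one_iff₀]
    right
    calc (1 : ℝ) < 2 ^ 3 := by norm_num
      _ ≤ (p : ℝ) ^ 3 := pow_le_pow_left₀ (by norm_num) h2 3

/-- Existence and uniqueness of the square root near one. -/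
lemma exists_root (u : ℤ_[p]) (hu : ‖u - 1‖ ≤ (p : ℝ) ^ (-(3 : ℤ))) :
    ∃ z : ℤ_[p], z ^ 2 = u ∧ ‖z - 1‖ < ‖(2 : ℤ_[p])‖ ∧
      ∀ z' : ℤ_[p], z' ^ 2 = u → ‖z' - 1‖ < ‖(2 : ℤ_[p])‖ → z' = z := by
  have hd : (derivative (X ^ 2 - C u : ℤ_[p][X])) = C 2 * X := by
    simp [derivative_pow]
  have h := hensels_lemma (p := p) (F := (X ^ 2 - C u : ℤ_[p][X])) (a := (1 : ℤ_[p])) (by
    rw [hd]
    simp only [map_sub, map_pow, aeval_X, aeval_C, map_mul, one_pow, mul_one, Algebra.algebraMap_self,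
      RingHom.id_apply]
    rw [norm_sub_rev]
    exact lt_of_le_of_lt hu (two_norm p).2)
  obtain ⟨z, h1, h2, -, h4⟩ := h
  rw [hd] at h2 h4
  simp only [map_sub, map_pow, aeval_X, aeval_C, map_mul, mul_one, Algebra.algebraMap_self,
      RingHom.id_apply] at h1 h2 h4
  exact ⟨z, by rw [sub_eq_zero] at h1; exact h1, h2, fun z' hz' hz'1 => h4 z' (by rw [hz', sub_self]) hz'1⟩

/-- The subgroup of the units close to one. -/
def U : Subgroup ℤ_[p]ˣ where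
  carrier := {u | ‖(u : ℤ_[p]) - 1‖ ≤ (p : ℝ) ^ (-(3 : ℤ))}
  one_mem' := by
    simp only [Set.mem_ofPred_eq, Units.val_one, sub_self, norm_zero]
    positivity
  mul_mem' := by
    intro a b ha hb
    simp only [Set.mem_ofPred_eq, Units.val_mul] at ha hb ⊢
    have h1 : (a : ℤ_[p]) * b - 1 = (a - 1) * b + (b - 1) := by ring
    rw [h1]
    refine (PadicInt.nonarchimedean _ _).trans (max_le ?_ hb)
    rw [norm_mul]
    calc ‖(a : ℤ_[p]) - 1‖ * ‖(b : ℤ_[p])‖ ≤ ‖(a : ℤ_[p]) - 1‖ * 1 :=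
          mul_le_mul_of_nonneg_left (PadicInt.norm_le_one _) (norm_nonneg _)
      _ ≤ _ := by rw [mul_one]; exact ha
  inv_mem' := by
    intro a ha
    simp only [Set.mem_ofPred_eq] at ha ⊢
    have h1 : ((a⁻¹ : ℤ_[p]ˣ) : ℤ_[p]) - 1 = -(((a : ℤ_[p]) - 1) * ((a⁻¹ : ℤ_[p]ˣ) : ℤ_[p])) := by
      have : (a : ℤ_[p]) * ((a⁻¹ : ℤ_[p]ˣ) : ℤ_[p]) = 1 := by
        rw [← Units.val_mul, mul_inv_cancel, Units.val_one]
      linear_combination this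
    rw [h1, norm_neg, norm_mul]
    calc ‖(a : ℤ_[p]) - 1‖ * ‖((a⁻¹ : ℤ_[p]ˣ) : ℤ_[p])‖ ≤ ‖(a : ℤ_[p]) - 1‖ * 1 :=
          mul_le_mul_of_nonneg_left (PadicInt.norm_le_one _) (norm_nonneg _)
      _ ≤ _ := by rw [mul_one]; exact ha

variable {p}

lemma mem_U {u : ℤ_[p]ˣ} : u ∈ U p ↔ ‖(u : ℤ_[p]) - 1‖ ≤ (p : ℝ) ^ (-(3 : ℤ)) := Iff.rfl

/-- the square root, in `ℤ_p` -/
def rt (u : U p) : ℤ_[p] := (exists_root p _ (mem_U.1 u.2)).choose

lemma rt_sq (u : U p) : rt u ^ 2 = ((u : ℤ_[p]ˣ) : ℤ_[p]) := (exists_root p _ (mem_U.1 u.2)).choose_spec.1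

lemma rt_near (u : U p) : ‖rt u - 1‖ < ‖(2 : ℤ_[p])‖ := (exists_root p _ (mem_U.1 u.2)).choose_spec.2.1

lemma rt_unique (u : U p) {z : ℤ_[p]} (h1 : z ^ 2 = ((u : ℤ_[p]ˣ) : ℤ_[p])) (h2 : ‖z - 1‖ < ‖(2 : ℤ_[p])‖) :
    z = rt u := (exists_root p _ (mem_U.1 u.2)).choose_spec.2.2 z h1 h2

lemma rt_one : rt (1 : U p) = 1 := by
  refine (rt_unique 1 (by simp) ?_).symm
  rw [sub_self, norm_zero]
  have h1 := (two_norm p).1
  by_contra h
  have h2 : ‖(2 : ℤ_[p])‖ = 0 := le_antisymm (not_lt.1 h) (norm_nonneg _)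
  rw [h2] at h1
  norm_num at h1

lemma rt_mul (u v : U p) : rt (u * v) = rt u * rt v := by
  refine (rt_unique (u * v) ?_ ?_).symm
  · rw [mul_pow, rt_sq, rt_sq]
    simp
  · have h1 : rt u * rt v - 1 = (rt u - 1) * rt v + (rt v - 1) := by ring
    rw [h1]
    refine lt_of_le_of_lt (PadicInt.nonarchimedean _ _) (max_lt ?_ (rt_near v))
    rw [norm_mul]
    calc ‖rt u - 1‖ * ‖rt v‖ ≤ ‖rt u - 1‖ * 1 :=
          mul_le_mul_of_nonneg_left (PadicInt.norm_le_one _) (norm_nonneg _)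
      _ < _ := by rw [mul_one]; exact rt_near u

lemma rt_cont (u : U p) : ‖rt u - 1‖ = ‖((u : ℤ_[p]ˣ) : ℤ_[p]) - 1‖ / ‖(2 : ℤ_[p])‖ := by
  have h0 : ‖(2 : ℤ_[p])‖ ≠ 0 := ((norm_nonneg _).trans_lt (rt_near u)).ne'
  have h1 : ‖rt u + 1‖ = ‖(2 : ℤ_[p])‖ := by
    have h2 : rt u + 1 = (rt u - 1) + 2 := by ring
    rw [h2, PadicInt.norm_add_eq_max_of_ne (rt_near u).ne, max_eq_right (rt_near u).le]
  have h3 : ((u : ℤ_[p]ˣ) : ℤ_[p]) - 1 = (rt u - 1) * (rt u + 1) := by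
    rw [← rt_sq]; ring
  rw [h3, norm_mul, h1, mul_div_assoc, div_self h0, mul_one]

lemma norm_rt (u : U p) : IsUnit (rt u) := by
  have h : IsUnit (rt u ^ 2) := by rw [rt_sq]; exact Units.isUnit _
  exact (isUnit_pow_iff two_ne_zero).1 h

/-- the square root, as a homomorphism to the units of `ℤ_p` -/
def rtHom : U p →* ℤ_[p]ˣ where
  toFun u := (norm_rt u).unit
  map_one' := by
    ext
    simp [rt_one]
  map_mul' u v := by
    ext
    simp [rt_mul]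

lemma rtHom_val (u : U p) : ((rtHom u : ℤ_[p]ˣ) : ℤ_[p]) = rt u := rfl

/-- the inclusion of the units of `ℤ_p` -/
def incl : ℤ_[p]ˣ →* (PadicAlgCl p)ˣ :=
  Units.map (((algebraMap ℚ_[p] (PadicAlgCl p)).comp (algebraMap ℤ_[p] ℚ_[p])).toMonoidHom)

lemma incl_val (c : ℤ_[p]ˣ) : ((incl c : (PadicAlgCl p)ˣ) : PadicAlgCl p)
    = algebraMap ℚ_[p] (PadicAlgCl p) ((c : ℤ_[p]) : ℚ_[p]) := rfl

lemma exists_zpow (x : (PadicAlgCl p)ˣ) {n : ℤ} (hn : n ≠ 0) : ∃ y : (PadicAlgCl p)ˣ, y ^ n = x := by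
  have key : ∀ (x : (PadicAlgCl p)ˣ) (m : ℕ), 0 < m → ∃ y : (PadicAlgCl p)ˣ, y ^ m = x := by
    intro x m hm
    obtain ⟨z, hz⟩ := IsAlgClosed.exists_pow_nat_eq (x : PadicAlgCl p) hm
    have hz0 : z ≠ 0 := by
      rintro rfl
      rw [zero_pow hm.ne'] at hz
      exact x.ne_zero hz.symm
    exact ⟨Units.mk0 z hz0, by ext; simpa using hz⟩
  obtain ⟨m, rfl | rfl⟩ := n.eq_nat_or_neg
  · obtain ⟨y, hy⟩ := key x m (by omega)
    exact ⟨y, by rw [zpow_natCast, hy]⟩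
  · obtain ⟨y, hy⟩ := key x m (by omega)
    exact ⟨y⁻¹, by rw [zpow_neg, zpow_natCast, inv_pow, inv_inv, hy]⟩

/-- `ℚ̄_pˣ` is divisible -/
instance divisible : DivisibleBy (Additive (PadicAlgCl p)ˣ) ℤ :=
  divisibleByOfSMulRightSurj _ _ (fun {n} hn x => by
    obtain ⟨y, hy⟩ := exists_zpow (Additive.toMul x) hn
    exact ⟨Additive.ofMul y, by
      show n • Additive.ofMul y = x
      rw [← ofMul_zpow, hy]; rfl⟩)

/-- the extension of the square root to all units -/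
lemma exists_ext : ∃ h : ℤ_[p]ˣ →* (PadicAlgCl p)ˣ, ∀ u : U p, h (u : ℤ_[p]ˣ) = incl (rtHom u) := by
  obtain ⟨g, hg⟩ := (Module.Baer.of_divisible (Additive (PadicAlgCl p)ˣ)).extension_property_addMonoidHom
    (MonoidHom.toAdditive (U p).subtype) (by
      intro a b h
      exact Subtype.ext h) (MonoidHom.toAdditive (incl.comp rtHom))
  refine ⟨MonoidHom.toAdditive.symm g, fun u => ?_⟩
  exact congrArg Additive.toMul (DFunLike.congr_fun hg (Additive.ofMul u))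

lemma isOpen_U : IsOpen ((U p : Subgroup ℤ_[p]ˣ) : Set ℤ_[p]ˣ) := by
  have h : IsOpen {x : ℤ_[p] | ‖x - 1‖ ≤ (p : ℝ) ^ (-(3 : ℤ))} := by
    have hp := (Fact.out : p.Prime)
    have h1 : {x : ℤ_[p] | ‖x - 1‖ ≤ (p : ℝ) ^ (-(3 : ℤ))} = Metric.closedBall 1 ((p : ℝ) ^ (-(3 : ℤ))) := by
      ext x
      simp [dist_eq_norm]
    rw [h1]
    refine IsUltrametricDist.isOpen_closedBall _ ?_
    have : (0 : ℝ) < p := by exact_mod_cast hp.pos
    positivity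
  exact h.preimage Units.continuous_val

theorem exists_sqrt : ∃ h : ℤ_[p]ˣ →* (PadicAlgCl p)ˣ, Continuous h ∧
    (∃ M : ℕ, M ≠ 0 ∧ ∀ u : ℤ_[p]ˣ,
      ((h u : PadicAlgCl p)) ^ (2 * M) = (algebraMap ℚ_[p] (PadicAlgCl p) ((u : ℤ_[p]) : ℚ_[p])) ^ M) ∧
    ∃ N : ℕ, ∀ u : ℤ_[p]ˣ, ‖(u : ℤ_[p]) - 1‖ ≤ (p : ℝ) ^ (-(N : ℤ)) →
      ∃ c : ℤ_[p]ˣ, (h u : PadicAlgCl p) = algebraMap ℚ_[p] (PadicAlgCl p) ((c : ℤ_[p]) : ℚ_[p]) ∧
        c ^ 2 = u := by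
  obtain ⟨h, hh⟩ := exists_ext (p := p)
  have hsq : ∀ u : U p, rtHom u ^ 2 = (u : ℤ_[p]ˣ) := by
    intro u
    ext
    rw [Units.val_pow_eq_pow_val, rtHom_val, rt_sq]
  refine ⟨h, ?_, ?_, 3, ?_⟩
  · refine continuous_of_continuousAt_one h ?_
    rw [ContinuousAt, Units.isEmbedding_val₀.tendsto_nhds_iff, map_one, Units.val_one]
    rw [tendsto_iff_norm_sub_tendsto_zero]
    have h1 : ∀ᶠ u : ℤ_[p]ˣ in nhds 1, ‖((h u : (PadicAlgCl p)ˣ) : PadicAlgCl p) - 1‖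
        = ‖(u : ℤ_[p]) - 1‖ / ‖(2 : ℤ_[p])‖ := by
      filter_upwards [isOpen_U.mem_nhds (U p).one_mem] with u hu
      have h2 := hh ⟨u, hu⟩
      simp only at h2
      have h6 := rt_cont ⟨u, hu⟩
      simp only at h6
      rw [h2, incl_val, rtHom_val, ← h6]
      have h3 : algebraMap ℚ_[p] (PadicAlgCl p) ((rt (⟨u, hu⟩ : U p) : ℤ_[p]) : ℚ_[p]) - 1
          = algebraMap ℚ_[p] (PadicAlgCl p) ((rt (⟨u, hu⟩ : U p) - 1 : ℤ_[p]) : ℚ_[p]) := by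
        rw [PadicInt.coe_sub, PadicInt.coe_one, map_sub, map_one]
      rw [h3, norm_algebraMap', PadicInt.norm_def]
    refine Filter.Tendsto.congr' (h1.mono fun u hu => hu.symm) ?_
    have h4 : Continuous fun u : ℤ_[p]ˣ => ‖(u : ℤ_[p]) - 1‖ / ‖(2 : ℤ_[p])‖ := by
      have := Units.continuous_val (M := ℤ_[p])
      fun_prop
    have h5 := h4.tendsto 1
    simpa using h5
  · have hfin : (U p).FiniteIndex := by
      have : Finite (ℤ_[p]ˣ ⧸ U p) := Subgroup.quotient_finite_of_isOpen _ isOpen_U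
      exact Subgroup.finiteIndex_of_finite_quotient
    refine ⟨(U p).index, hfin.index_ne_zero, fun u => ?_⟩
    have h1 : u ^ (U p).index ∈ U p := Subgroup.pow_index_mem _ u
    have h2 := hh ⟨_, h1⟩
    simp only at h2
    have h3 : (h u) ^ (2 * (U p).index) = incl u ^ (U p).index := by
      rw [mul_comm, pow_mul, ← map_pow, h2, ← map_pow, hsq, map_pow]
    have h4 := congrArg (fun x : (PadicAlgCl p)ˣ => (x : PadicAlgCl p)) h3
    simpa only [Units.val_pow_eq_pow_val, incl_val] using h4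
  · intro u hu
    refine ⟨rtHom ⟨u, by rw [mem_U]; exact_mod_cast hu⟩, ?_, hsq _⟩
    rw [← incl_val, ← hh]

end Run7.h658.FM
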