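import Pool.Agent.Run7.h658.FM.G2

/-!
# Integrality and purity of the representation `h(χ)⁻¹`
(MP_395897_nt, helper658, piece G)
-/

set_option autoImplicit false

noncomputable section

open NumberField Polynomial Run7.h547

namespace Run7.h658.FM

variable {F : Type} [Field F] {l : ℕ} [Fact l.Prime]

lemma isIntegral_of_pow_eq {a : PadicAlgCl l} {q M : ℕ} (hM : M ≠ 0)
    (ha : a ^ (2 * M) = (q : PadicAlgCl l) ^ M) : IsIntegral ℤ a := by
  refine IsIntegral.of_pow (n := 2 * M) (by omega) ?_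
  rw [ha]
  exact (IsIntegral.pow (by simpa using (isIntegral_algebraMap (R := ℤ) (A := PadicAlgCl l)
    (x := (q : ℤ)))) M)

lemma isWeilNumber_of_pow_eq {a : PadicAlgCl l} {q M : ℕ} (hM : M ≠ 0)
    (ha : a ^ (2 * M) = (q : PadicAlgCl l) ^ M) : IsWeilNumber q 1 a := by
  have hint := isIntegral_of_pow_eq hM ha
  have halg : IsIntegral ℚ a := hint.tower_top
  refine ⟨halg.isAlgebraic, fun z hz => ?_⟩
  have h1 : minpoly ℚ a ∣ (X ^ (2 * M) - C ((q : ℚ) ^ M)) := by
    apply minpoly.dvd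
    simp [ha]
  obtain ⟨g, hg⟩ := h1
  have h2 : z ^ (2 * M) = (q : ℂ) ^ M := by
    have h3 := congrArg (aeval z) hg
    rw [map_mul, hz, zero_mul] at h3
    simp only [map_sub, map_pow, aeval_X, map_natCast] at h3
    exact sub_eq_zero.1 h3
  have h4 : (‖z‖ ^ 2) ^ M = (q : ℝ) ^ M := by
    rw [← pow_mul, ← norm_pow, h2, norm_pow, Complex.norm_natCast]
  have h5 : ‖z‖ ^ 2 = q := by
    exact (pow_left_inj₀ (by positivity) (by positivity) hM).1 h4
  rw [← h5, Int.cast_one, ← Real.rpow_natCast ‖z‖ 2, ← Real.rpow_mul (norm_nonneg z)]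
  norm_num

lemma charpoly_scalar {R : Type*} [CommRing R] (a : R) :
    (Matrix.scalar (Fin 1) a).charpoly = X - C a := by
  rw [Matrix.charpoly, Matrix.charmatrix]
  simp

/-- the monodromy filtration of `N = 0` -/
def filt (l : ℕ) [Fact l.Prime] (j : ℤ) : Submodule (PadicAlgCl l) (Fin 1 → PadicAlgCl l) :=
  if j < 0 then ⊥ else ⊤

lemma filt_neg {j : ℤ} (h : j < 0) : filt l j = ⊥ := if_pos h

lemma filt_nonneg {j : ℤ} (h : 0 ≤ j) : filt l j = ⊤ := if_neg (not_lt.2 h)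

lemma isMonodromyFiltration_filt :
    IsMonodromyFiltration (0 : Matrix (Fin 1) (Fin 1) (PadicAlgCl l)) (filt l) where
  mono := by
    intro i j hij
    by_cases hi : i < 0
    · rw [filt_neg hi]; exact bot_le
    · rw [filt_nonneg (j := j) (by omega)]; exact le_top
  bot := ⟨-1, filt_neg (by norm_num)⟩
  top := ⟨0, filt_nonneg le_rfl⟩
  shift := by
    intro j x _
    rw [Matrix.zero_mulVec]
    exact Submodule.zero_mem _
  inj := by
    intro j x hx h
    rcases Nat.eq_zero_or_pos j with rfl | hj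
    · simpa using h
    · rw [filt_nonneg (j := (j : ℤ) - 1) (by omega)]
      exact Submodule.mem_top
  surj := by
    intro j y hy
    rcases Nat.eq_zero_or_pos j with rfl | hj
    · exact ⟨y, by simpa using hy, by simp⟩
    · rw [filt_neg (j := -(j : ℤ)) (by omega), Submodule.mem_bot] at hy
      exact ⟨0, Submodule.zero_mem _, by simp [hy]⟩

theorem condTwo_rho [CharZero F] (h : ℤ_[l]ˣ →* (PadicAlgCl l)ˣ) (M : ℕ) (hM : M ≠ 0)
    (hh : ∀ u : ℤ_[l]ˣ, ((h u : PadicAlgCl l)) ^ (2 * M) =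
      (algebraMap ℚ_[l] (PadicAlgCl l) ((u : ℤ_[l]) : ℚ_[l])) ^ M) : CondTwo (rho F h) := by
  have key : ∀ (P : Ideal (Zbar F)), (l : Zbar F) ∉ P → ∀ τ : GF F, IsGeomFrob P τ →
      (((h (chiF F l τ))⁻¹ : (PadicAlgCl l)ˣ) : PadicAlgCl l) ^ (2 * M) =
        (resCard P : PadicAlgCl l) ^ M := by
    intro P hP τ hτ
    rw [← map_inv, hh, chiF_frob P hP τ hτ]
    simp
  refine ⟨1, fun P _ hP Φ hΦ t _ _ => ⟨(rho F h).comp (weil P).subtype, 0, ?_, ?_, ?_⟩⟩
  · refine ⟨IsNilpotent.zero, ⟨⊤, isOpen_univ, fun τ hτ _ => rho_unramified h P hP τ hτ⟩,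
      fun m i => ?_⟩
    rw [smul_zero, IsNilpotent.exp_zero, mul_one]
    rfl
  · intro τ hτ α hα
    have h1 : (Matrix.scalar (Fin 1) (((h (chiF F l τ))⁻¹ : (PadicAlgCl l)ˣ) :
      PadicAlgCl l)).charpoly.IsRoot α := hα
    rw [charpoly_scalar, IsRoot.def, eval_sub, eval_X, eval_C, sub_eq_zero] at h1
    rw [h1]
    exact isIntegral_of_pow_eq hM (key P hP τ hτ)
  · refine ⟨filt l, isMonodromyFiltration_filt, fun τ hτ j x α hx hx' hα => ?_⟩
    have hj : j = 0 := by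
      by_contra hj0
      rcases lt_or_gt_of_ne hj0 with h1 | h1
      · rw [filt_neg h1, Submodule.mem_bot] at hx
        rw [hx] at hx'
        exact hx' (Submodule.zero_mem _)
      · rw [filt_nonneg (j := j - 1) (by omega)] at hx'
        exact hx' Submodule.mem_top
    subst hj
    rw [filt_neg (j := 0 - 1) (by norm_num), Submodule.mem_bot] at hx' hα
    have h2 : (((h (chiF F l τ))⁻¹ : (PadicAlgCl l)ˣ) : PadicAlgCl l) • x - α • x = 0 := by
      rw [← hα]
      congr 1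
      change _ = (Matrix.scalar (Fin 1) (((h (chiF F l τ))⁻¹ : (PadicAlgCl l)ˣ) :
        PadicAlgCl l)).mulVec x
      rw [Matrix.scalar_apply]
      ext i
      rw [Matrix.mulVec_diagonal]
      rfl
    rw [← sub_smul, smul_eq_zero, sub_eq_zero] at h2
    rw [← h2.resolve_right hx']
    exact isWeilNumber_of_pow_eq hM (key P hP τ hτ)

/-- PIECE G. -/
theorem exists_rho (F : Type) [Field F] [NumberField F] (h : ℤ_[l]ˣ →* (PadicAlgCl l)ˣ)
    (hc : Continuous h) (M : ℕ) (hM : M ≠ 0)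
    (hh : ∀ u : ℤ_[l]ˣ, ((h u : PadicAlgCl l)) ^ (2 * M) =
      (algebraMap ℚ_[l] (PadicAlgCl l) ((u : ℤ_[l]) : ℚ_[l])) ^ M) :
    ∃ ρ : Rep F l 1, Continuous ρ ∧ ρ.toRepresentation.IsIrreducible ∧ UnramifiedAE ρ ∧
      CondTwo ρ ∧ ∀ τ : GF F, (ρ τ : Matrix (Fin 1) (Fin 1) (PadicAlgCl l)) =
        Matrix.scalar (Fin 1) (((h (cyclotomicCharacter (AlgebraicClosure F) l
          (τ : AlgebraicClosure F ≃+* AlgebraicClosure F)))⁻¹ : (PadicAlgCl l)ˣ) :
            PadicAlgCl l) :=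
  ⟨rho F h, continuous_rho hc, irreducible_of_dim_one _, rho_unramifiedAE h,
    condTwo_rho h M hM hh, fun _ => rfl⟩

end Run7.h658.FM
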