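import Pool.Agent.Run7.h658.FM.G1

/-!
# The representation `h(χ)⁻¹` of the absolute Galois group of a number field
(MP_395897_nt, helper658, piece G)
-/

set_option autoImplicit false

noncomputable section

open NumberField Polynomial Run7.h547

namespace Run7.h658.FM

section Char

variable (F : Type) [Field F] (l : ℕ) [Fact l.Prime]

/-- The `l`-adic cyclotomic character of the absolute Galois group of `F`. -/
def chiF : GF F →* ℤ_[l]ˣ :=
  (cyclotomicCharacter (AlgebraicClosure F) l).comp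
    (MulSemiringAction.toRingAut (GF F) (AlgebraicClosure F))

lemma chiF_apply (τ : GF F) : chiF F l τ = cyclotomicCharacter (AlgebraicClosure F) l
    (τ : AlgebraicClosure F ≃+* AlgebraicClosure F) := rfl

lemma continuous_chiF : Continuous (chiF F l) :=
  cyclotomicCharacter.continuous l F (AlgebraicClosure F)

variable {F l} [CharZero F]

lemma chiF_inertia (P : Ideal (Zbar F)) (hP : (l : Zbar F) ∉ P) (τ : GF F)
    (h : τ ∈ P.inertia (GF F)) : chiF F l τ = 1 := by
  apply Units.ext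
  rw [chiF_apply, chi_eq τ 1 (apply_eq P hP τ 1 ?_)]
  · simp
  · intro x
    rw [pow_one]
    exact h x

lemma chiF_frob (P : Ideal (Zbar F)) (hP : (l : Zbar F) ∉ P) (τ : GF F)
    (h : IsGeomFrob P τ) : (((chiF F l τ)⁻¹ : ℤ_[l]ˣ) : ℤ_[l]) = resCard P := by
  rw [← map_inv, chiF_apply]
  exact chi_eq τ⁻¹ _ (apply_eq P hP τ⁻¹ _ h)

end Char

section Rho

variable {F : Type} [Field F] {l : ℕ} [Fact l.Prime]

/-- the scalar `1 × 1` matrices -/
def sc (l : ℕ) [Fact l.Prime] : (PadicAlgCl l)ˣ →* GL (Fin 1) (PadicAlgCl l) :=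
  Units.map (Matrix.scalar (Fin 1) : PadicAlgCl l →+* Matrix (Fin 1) (Fin 1) (PadicAlgCl l)).toMonoidHom

lemma continuous_sc : Continuous (sc l) := by
  refine Continuous.units_map _ ?_
  change Continuous fun x : PadicAlgCl l => Matrix.diagonal fun _ : Fin 1 => x
  exact Continuous.matrix_diagonal (continuous_pi fun _ => continuous_id)

/-- The representation `h(χ)⁻¹`. -/
def rho (F : Type) [Field F] (h : ℤ_[l]ˣ →* (PadicAlgCl l)ˣ) : Rep F l 1 :=
  (sc l).comp ((h.comp (chiF F l))⁻¹)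

lemma rho_apply (h : ℤ_[l]ˣ →* (PadicAlgCl l)ˣ) (τ : GF F) :
    rho F h τ = sc l ((h (chiF F l τ))⁻¹) := rfl

lemma coe_rho (h : ℤ_[l]ˣ →* (PadicAlgCl l)ˣ) (τ : GF F) :
    (rho F h τ : Matrix (Fin 1) (Fin 1) (PadicAlgCl l)) =
      Matrix.scalar (Fin 1) (((h (chiF F l τ))⁻¹ : (PadicAlgCl l)ˣ) : PadicAlgCl l) := rfl

lemma continuous_rho {h : ℤ_[l]ˣ →* (PadicAlgCl l)ˣ} (hc : Continuous h) :
    Continuous (rho F h) :=
  continuous_sc.comp ((hc.comp (continuous_chiF F l)).inv)

lemma irreducible_of_dim_one (ρ : Rep F l 1) : ρ.toRepresentation.IsIrreducible := by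
  have h1 : IsSimpleModule (PadicAlgCl l) (Fin 1 → PadicAlgCl l) := by
    rw [isSimpleModule_iff_finrank_eq_one]
    simp
  refine { exists_pair_ne := ⟨⊥, ⊤, ?_⟩, eq_bot_or_eq_top := ?_ }
  · intro h
    have h2 := congrArg Subrepresentation.toSubmodule h
    have h3 : (⊥ : Submodule (PadicAlgCl l) (Fin 1 → PadicAlgCl l)) = ⊤ := h2
    exact bot_ne_top h3
  · intro a
    rcases eq_bot_or_eq_top a.toSubmodule with h2 | h2
    · left
      exact Subrepresentation.toSubmodule_injective h2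
    · right
      exact Subrepresentation.toSubmodule_injective h2

variable [CharZero F]

lemma rho_unramified (h : ℤ_[l]ˣ →* (PadicAlgCl l)ˣ) (P : Ideal (Zbar F))
    (hP : (l : Zbar F) ∉ P) : UnramifiedAt (rho F h) P := by
  intro τ hτ
  rw [rho_apply, chiF_inertia P hP τ hτ]
  simp

end Rho

lemma rho_unramifiedAE {F : Type} [Field F] [NumberField F] {l : ℕ} [Fact l.Prime]
    (h : ℤ_[l]ˣ →* (PadicAlgCl l)ˣ) : UnramifiedAE (rho F h) := by
  have hl : l.Prime := Fact.out
  have h0 : Ideal.span {(l : 𝓞 F)} ≠ 0 := by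
    rw [Ne, Ideal.zero_eq_bot, Ideal.span_singleton_eq_bot]
    exact_mod_cast hl.ne_zero
  refine (Ideal.finite_factors h0).subset ?_
  rintro v ⟨P, -, hv, hP⟩
  change v.asIdeal ∣ Ideal.span {(l : 𝓞 F)}
  rw [Ideal.dvd_span_singleton, ← hv]
  by_contra h1
  refine hP (rho_unramified h P fun h2 => h1 ?_)
  rw [Ideal.under_def, Ideal.mem_comap, map_natCast]
  exact h2

end Run7.h658.FM
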